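import Mathlib

set_option autoImplicit false

/-! Definitions: the homomorphism threshold and the blowup threshold. -/

namespace Pool.Agent.KS6_17.HB

open Finset SimpleGraph

/-- `G` is maximal `H`-free: it has no copy of `H` as a subgraph, but adding any edge between two
distinct non-adjacent vertices creates one. -/
def MaximalFree {W V : Type} (H : SimpleGraph W) (G : SimpleGraph V) : Prop :=
  H.Free G ∧ ∀ u v : V, u ≠ v → ¬ G.Adj u v → ¬ H.Free (G ⊔ SimpleGraph.edge u v)

/-- `G` is a blowup of `F`: the vertices of `G` are partitioned into nonempty classes `π ⁻¹ {x}`,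
one for every vertex `x` of `F`, and `u, v` are adjacent in `G` iff `π u, π v` are adjacent
in `F`. -/
def IsBlowup {V W : Type} (G : SimpleGraph V) (F : SimpleGraph W) : Prop :=
  ∃ π : V → W, Function.Surjective π ∧ ∀ u v : V, G.Adj u v ↔ F.Adj (π u) (π v)

open Classical in
/-- Some finite `H`-free graph `F` is a target of homomorphisms for all finite `H`-free graphs of
minimum degree at least `α n`. -/
def HomProp {U : Type} (H : SimpleGraph U) (α : ℝ) : Prop :=
  ∃ (W : Type) (_ : Fintype W) (F : SimpleGraph W), H.Free F ∧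
    ∀ (V : Type) [Fintype V] (G : SimpleGraph V),
      H.Free G → α * Fintype.card V ≤ (G.minDegree : ℝ) → Nonempty (G →g F)

open Classical in
/-- All finite maximal `H`-free graphs of minimum degree at least `α n` are blowups of graphs of
bounded order. -/
def BlowupProp {U : Type} (H : SimpleGraph U) (α : ℝ) : Prop :=
  ∃ C : ℕ, ∀ (V : Type) [Fintype V] (G : SimpleGraph V),
    MaximalFree H G → α * Fintype.card V ≤ (G.minDegree : ℝ) →
    ∃ (W : Type) (_ : Fintype W) (F : SimpleGraph W), Fintype.card W ≤ C ∧ IsBlowup G F

/-- The homomorphism threshold of `H`. -/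
noncomputable def deltaHom {U : Type} (H : SimpleGraph U) : ℝ := sInf {α : ℝ | 0 ≤ α ∧ HomProp H α}

/-- The blowup threshold of `H`. -/
noncomputable def deltaB {U : Type} (H : SimpleGraph U) : ℝ := sInf {α : ℝ | 0 ≤ α ∧ BlowupProp H α}

/-- `H - v` is `k`-colourable for some vertex `v`. -/
def HasCriticalVertex {U : Type} (H : SimpleGraph U) (k : ℕ) : Prop :=
  ∃ v, (H.induce {v}ᶜ).Colorable k

/-- The vertices of `H` can be partitioned into `k - 1` independent sets and one set (the class
`i₀`) on which `H` induces a graph of maximum degree at most one. -/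
def MatchColorable {U : Type} (H : SimpleGraph U) (k : ℕ) : Prop :=
  ∃ (i₀ : Fin k) (c : U → Fin k), (∀ x y, H.Adj x y → c x = c y → c x = i₀) ∧
    ∀ x y z, c x = i₀ → c y = i₀ → c z = i₀ → H.Adj x y → H.Adj x z → y = z

end Pool.Agent.KS6_17.HB
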