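import Mathlib

set_option autoImplicit false

/-! Greedy embeddings of a graph into a graph with nearly complete pairs of classes. -/

namespace Pool.Agent.KS6_17.HB

open Finset SimpleGraph

variable {V W : Type} [Fintype V] [DecidableEq V] [Fintype W] [DecidableEq W]
  {G : SimpleGraph V} [DecidableRel G.Adj] {H : SimpleGraph W} {k : ℕ}

omit [Fintype V] in
/-- Greedy extension of a partial embedding. -/
theorem extend (A : Fin k → Finset V) (cl : W → Fin k) (b : ℕ) (S : Finset W) (f : W → V)
    (hinj : ∀ x ∈ S, ∀ y ∈ S, f x = f y → x = y)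
    (hadj : ∀ x ∈ S, ∀ y ∈ S, H.Adj x y → G.Adj (f x) (f y))
    (hS : ∀ x ∈ S, ∀ w, w ∉ S → H.Adj x w → #{y ∈ A (cl w) | ¬ G.Adj (f x) y} ≤ b)
    (hcl : ∀ x, x ∉ S → ∀ w, w ∉ S → H.Adj x w → cl x ≠ cl w)
    (hA : ∀ i j, i ≠ j → ∀ a ∈ A i, #{y ∈ A j | ¬ G.Adj a y} ≤ b)
    (hcard : ∀ j, Fintype.card W * (b + 1) ≤ #(A j)) : H ⊑ G := by
  classical
  have key : ∀ R : Finset W, ∃ g : W → V,
      (∀ x ∈ S ∪ R, ∀ y ∈ S ∪ R, g x = g y → x = y) ∧
      (∀ x ∈ S ∪ R, ∀ y ∈ S ∪ R, H.Adj x y → G.Adj (g x) (g y)) ∧
      (∀ x ∈ S, g x = f x) ∧ (∀ x ∈ R, x ∉ S → g x ∈ A (cl x)) := by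
    intro R
    induction R using Finset.induction_on with
    | empty => exact ⟨f, by simpa using hinj, by simpa using hadj, fun _ _ => rfl, by simp⟩
    | insert w R hw ih =>
      obtain ⟨g, h1, h2, h3, h4⟩ := ih
      by_cases hwS : w ∈ S
      · have e : S ∪ insert w R = S ∪ R := by
          ext x; simp only [mem_union, mem_insert]
          constructor
          · rintro (h | rfl | h)
            · exact Or.inl h
            · exact Or.inl hwS
            · exact Or.inr h
          · rintro (h | h)
            · exact Or.inl h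
            · exact Or.inr (Or.inr h)
        rw [e]
        refine ⟨g, h1, h2, h3, fun x hx hxS => ?_⟩
        rcases mem_insert.1 hx with rfl | hx
        · exact absurd hwS hxS
        · exact h4 x hx hxS
      have hwT : w ∉ S ∪ R := by simp [hwS, hw]
      -- the forbidden vertices
      let B : Finset V := (S ∪ R).image g ∪
        ((S ∪ R).filter (fun x => H.Adj x w)).biUnion
          (fun x => (A (cl w)).filter (fun y => ¬ G.Adj (g x) y))
      have hB : #B < #(A (cl w)) := by
        have hT : #(S ∪ R) + 1 ≤ Fintype.card W := by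
          rw [← Finset.card_insert_of_notMem hwT]
          exact card_le_univ _
        have b1 : #((S ∪ R).image g) ≤ #(S ∪ R) := card_image_le
        have b2 : #(((S ∪ R).filter (fun x => H.Adj x w)).biUnion
          (fun x => (A (cl w)).filter (fun y => ¬ G.Adj (g x) y))) ≤ #(S ∪ R) * b := by
          refine (card_biUnion_le_card_mul _ _ b ?_).trans
            (Nat.mul_le_mul_right _ (card_filter_le _ _))
          intro x hx
          rw [mem_filter] at hx
          obtain ⟨hx, hxw⟩ := hx
          by_cases hxS : x ∈ S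
          · rw [h3 x hxS]
            exact hS x hxS w hwS hxw
          · have hxR : x ∈ R := by
              rcases mem_union.1 hx with h | h
              · exact absurd h hxS
              · exact h
            exact hA _ _ (hcl x hxS w hwS hxw) _ (h4 x hxR hxS)
        calc #B ≤ #(S ∪ R) + #(S ∪ R) * b :=
              (card_union_le _ _).trans (Nat.add_le_add b1 b2)
          _ = #(S ∪ R) * (b + 1) := by ring
          _ < Fintype.card W * (b + 1) := by nlinarith
          _ ≤ _ := hcard _
      obtain ⟨a, haA, haB⟩ := exists_mem_notMem_of_card_lt_card hB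
      have ha1 : ∀ x ∈ S ∪ R, g x ≠ a := by
        intro x hx h
        exact haB (mem_union_left _ (mem_image.2 ⟨x, hx, h⟩))
      have ha2 : ∀ x ∈ S ∪ R, H.Adj x w → G.Adj (g x) a := by
        intro x hx hxw
        by_contra hcon
        exact haB (mem_union_right _ (mem_biUnion.2 ⟨x, mem_filter.2 ⟨hx, hxw⟩,
          mem_filter.2 ⟨haA, hcon⟩⟩))
      have hne : ∀ x ∈ S ∪ R, x ≠ w := fun x hx h => hwT (h ▸ hx)
      have e : S ∪ insert w R = insert w (S ∪ R) := by
        ext x; simp only [mem_union, mem_insert]; tauto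
      rw [e]
      refine ⟨Function.update g w a, ?_, ?_, ?_, ?_⟩
      · intro x hx y hy hxy
        rcases mem_insert.1 hx with hx' | hx' <;> rcases mem_insert.1 hy with hy' | hy'
        · rw [hx', hy']
        · rw [hx', Function.update_self, Function.update_of_ne (hne y hy')] at hxy
          exact absurd hxy.symm (ha1 y hy')
        · rw [hy', Function.update_self, Function.update_of_ne (hne x hx')] at hxy
          exact absurd hxy (ha1 x hx')
        · rw [Function.update_of_ne (hne x hx'), Function.update_of_ne (hne y hy')] at hxy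
          exact h1 x hx' y hy' hxy
      · intro x hx y hy hxy
        rcases mem_insert.1 hx with hx' | hx' <;> rcases mem_insert.1 hy with hy' | hy'
        · rw [hx', hy'] at hxy
          exact absurd hxy (H.loopless.irrefl _)
        · rw [hx'] at hxy
          rw [hx', Function.update_self, Function.update_of_ne (hne y hy')]
          exact (ha2 y hy' hxy.symm).symm
        · rw [hy'] at hxy
          rw [hy', Function.update_self, Function.update_of_ne (hne x hx')]
          exact ha2 x hx' hxy
        · rw [Function.update_of_ne (hne x hx'), Function.update_of_ne (hne y hy')]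
          exact h2 x hx' y hy' hxy
      · intro x hx
        rw [Function.update_of_ne (hne x (mem_union_left _ hx))]
        exact h3 x hx
      · intro x hx hxS
        rcases mem_insert.1 hx with rfl | hx
        · rw [Function.update_self]; exact haA
        · rw [Function.update_of_ne (hne x (mem_union_right _ hx))]
          exact h4 x hx hxS
  obtain ⟨g, h1, h2, -, -⟩ := key univ
  refine ⟨⟨⟨g, fun {x y} h => h2 x (by simp) y (by simp) h⟩, fun x y h => ?_⟩⟩
  exact h1 x (by simp) y (by simp) h

/-- A vertex with many neighbours in each class. -/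
theorem hub_embed (A : Fin k → Finset V) (cl : W → Fin k) (v₀ : W) (b : ℕ) (u : V)
    (hcl : ∀ x y, H.Adj x y → x ≠ v₀ → y ≠ v₀ → cl x ≠ cl y)
    (hA : ∀ i j, i ≠ j → ∀ a ∈ A i, #{y ∈ A j | ¬ G.Adj a y} ≤ b)
    (hcard : ∀ j, Fintype.card W * (b + 1) ≤ #{y ∈ A j | G.Adj u y}) : H ⊑ G := by
  refine extend (fun j => (A j).filter (fun y => G.Adj u y)) cl b {v₀} (fun _ => u) ?_ ?_ ?_ ?_ ?_
    hcard
  · intro x hx y hy _
    rw [mem_singleton] at hx hy
    rw [hx, hy]
  · intro x hx y hy h
    rw [mem_singleton] at hx hy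
    rw [hx, hy] at h
    exact absurd h (H.loopless.irrefl _)
  · intro x _ w _ _
    have : ((A (cl w)).filter (fun y => G.Adj u y)).filter (fun y => ¬ G.Adj u y) = ∅ := by
      ext y; simp
    simp only [this]
    simp
  · intro x hx w hw h
    exact hcl x w h (by simpa using hx) (by simpa using hw)
  · intro i j hij a ha
    refine (card_le_card ?_).trans (hA i j hij a (mem_filter.1 ha).1)
    intro y hy
    rw [mem_filter, mem_filter] at hy
    exact mem_filter.2 ⟨hy.1.1, hy.2⟩

/-- A vertex with many neighbours in its own class. -/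
theorem star_embed (A : Fin k → Finset V) (cl : W → Fin k) (v₀ : W) (b : ℕ) (u : V) (i : Fin k)
    (hcl : ∀ x y, H.Adj x y → x ≠ v₀ → y ≠ v₀ → cl x ≠ cl y) [DecidableRel H.Adj]
    (hA : ∀ i j, i ≠ j → ∀ a ∈ A i, #{y ∈ A j | ¬ G.Adj a y} ≤ b)
    (hu : ∀ j, j ≠ i → #{y ∈ A j | ¬ G.Adj u y} ≤ b)
    (D : Finset V) (hD1 : ∀ x ∈ D, G.Adj u x)
    (hD2 : ∀ x ∈ D, ∀ j, j ≠ i → #{y ∈ A j | ¬ G.Adj x y} ≤ b)
    (hD3 : #{w | H.Adj v₀ w ∧ cl w = i} ≤ #D)
    (hcard : ∀ j, Fintype.card W * (b + 1) ≤ #(A j)) : H ⊑ G := by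
  set N : Finset W := {w | H.Adj v₀ w ∧ cl w = i} with hN
  have memN : ∀ w, w ∈ N ↔ H.Adj v₀ w ∧ cl w = i := fun w => by simp [hN]
  obtain ⟨g, hg1, hg2⟩ : ∃ g : W → V, (∀ x ∈ N, g x ∈ D) ∧
      (∀ x ∈ N, ∀ y ∈ N, g x = g y → x = y) := by
    have hc : Fintype.card N ≤ Fintype.card D := by simpa using hD3
    obtain ⟨e⟩ := Function.Embedding.nonempty_of_card_le hc
    refine ⟨fun w => if h : w ∈ N then (e ⟨w, h⟩ : V) else u, fun x hx => ?_, fun x hx y hy h => ?_⟩
    · simp only [dif_pos hx]; exact (e ⟨x, hx⟩).2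
    · simp only [dif_pos hx, dif_pos hy] at h
      have := e.injective (Subtype.ext h)
      exact congrArg Subtype.val this
  have hv0 : v₀ ∉ N := fun h => H.loopless.irrefl _ ((memN _).1 h).1
  have hne : ∀ x ∈ N, x ≠ v₀ := fun x hx h => hv0 (h ▸ hx)
  refine extend A cl b (insert v₀ N) (fun w => if w = v₀ then u else g w) ?_ ?_ ?_ ?_ hA hcard
  · intro x hx y hy h
    rcases mem_insert.1 hx with hx' | hx' <;> rcases mem_insert.1 hy with hy' | hy'
    · rw [hx', hy']
    · rw [if_pos hx', if_neg (hne y hy')] at h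
      exact absurd h (hD1 _ (hg1 y hy')).ne
    · rw [if_pos hy', if_neg (hne x hx')] at h
      exact absurd h (hD1 _ (hg1 x hx')).ne'
    · rw [if_neg (hne x hx'), if_neg (hne y hy')] at h
      exact hg2 x hx' y hy' h
  · intro x hx y hy h
    rcases mem_insert.1 hx with hx' | hx' <;> rcases mem_insert.1 hy with hy' | hy'
    · rw [hx', hy'] at h
      exact absurd h (H.loopless.irrefl _)
    · rw [if_pos hx', if_neg (hne y hy')]
      exact hD1 _ (hg1 y hy')
    · rw [if_pos hy', if_neg (hne x hx')]
      exact (hD1 _ (hg1 x hx')).symm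
    · exact absurd (((memN x).1 hx').2.trans ((memN y).1 hy').2.symm)
        (hcl x y h (hne x hx') (hne y hy'))
  · intro x hx w hw h
    rw [mem_insert, not_or] at hw
    rcases mem_insert.1 hx with hx' | hx'
    · rw [if_pos hx']
      apply hu
      intro hcw
      rw [hx'] at h
      exact hw.2 ((memN w).2 ⟨h, hcw⟩)
    · rw [if_neg (hne x hx')]
      apply hD2 _ (hg1 x hx')
      rw [← ((memN x).1 hx').2]
      exact (hcl x w h (hne x hx') hw.1).symm
  · intro x hx w hw h
    rw [mem_insert, not_or] at hx hw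
    exact hcl x w h hx.1 hw.1

end Pool.Agent.KS6_17.HB
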