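import Mathlib
import Pool.Agent.KS6_17.HB.Embed

set_option autoImplicit false

/-! The structure of `H`-free graphs of minimum degree close to `(1 - 1/k) n`, for graphs `H`
with a vertex `v₀` such that `H - v₀` is `k`-colourable. -/

namespace Pool.Agent.KS6_17.HB

open Finset SimpleGraph

variable {V W : Type} [Fintype V] [DecidableEq V] [Fintype W] [DecidableEq W]
  {G : SimpleGraph V} [DecidableRel G.Adj] {H : SimpleGraph W} [DecidableRel H.Adj] {k : ℕ}

/-- splitting a finset by adjacency -/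
theorem card_adj_add (A : Finset V) (v : V) :
    #{y ∈ A | G.Adj v y} + #{y ∈ A | ¬ G.Adj v y} = #A :=
  card_filter_add_card_filter_not _

/-- The partition theorem. -/
theorem partition (cl : W → Fin k) (v₀ : W)
    (hcl : ∀ x y, H.Adj x y → x ≠ v₀ → y ≠ v₀ → cl x ≠ cl y) (hfree : H.Free G)
    (T : Fin k → Finset V) (hTadj : ∀ i j, i ≠ j → ∀ a ∈ T i, ∀ b ∈ T j, G.Adj a b)
    (s L t q e : ℕ) (hs : s = Fintype.card W) (hs1 : 1 ≤ s) (hL : 1 ≤ L) (hk : 1 ≤ k)
    (ht : t = s * ((s + 1) * L)) (hT : ∀ i, #(T i) = t)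
    (hq : ∀ v, #{y | ¬ G.Adj v y} ≤ q) (hkq : k * q ≤ Fintype.card V + e)
    (het : e * t ≤ Fintype.card V)
    (hbig : ∀ z : ℕ, z * L ≤ Fintype.card V →
      k * (e + k * s + z) + k * (s * ((s + 1) * (e + k * s + z) + 1)) ≤ Fintype.card V) :
    ∃ (c : V → Fin k) (b : ℕ), (∀ w, #{y | c y ≠ c w ∧ ¬ G.Adj w y} ≤ b) ∧
      ∀ j, s * (b + 1) ≤ #{y | c y = j} := by
  classical
  set n := Fintype.card V with hn
  -- the type of a vertex
  have h1 : ∀ v, ∃ i, #{y ∈ T i | G.Adj v y} < s := by
    intro v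
    by_contra hcon
    push Not at hcon
    refine hfree (hub_embed T cl v₀ 0 v hcl ?_ ?_)
    · intro i j hij a ha
      rw [Nat.le_zero, card_eq_zero, filter_eq_empty_iff]
      intro y hy h
      exact h (hTadj i j hij a ha y hy)
    · intro j
      rw [← hs]
      simpa using hcon j
  choose τ hτ using h1
  set M := (s + 1) * L - 1 with hM
  have hM1 : M + 1 = (s + 1) * L := by
    have : 1 ≤ (s + 1) * L := Nat.mul_pos (by omega) hL
    omega
  set B : Finset V := {v | ∃ j, j ≠ τ v ∧ M < #{x ∈ T j | ¬ G.Adj v x}} with hB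
  have memB : ∀ v, v ∈ B ↔ ∃ j, j ≠ τ v ∧ M < #{x ∈ T j | ¬ G.Adj v x} := fun v => by simp [hB]
  -- few bad vertices
  have hts : s ≤ t := by
    rw [ht]
    exact Nat.le_mul_of_pos_right _ (Nat.mul_pos (by omega) hL)
  have hown : ∀ v, t ≤ #{x ∈ T (τ v) | ¬ G.Adj v x} + s := by
    intro v
    have := card_adj_add (G := G) (T (τ v)) v
    have := hτ v
    have := hT (τ v)
    omega
  have hsum1 : ∑ v : V, ∑ j : Fin k, #{x ∈ T j | ¬ G.Adj v x} ≤ t * (n + e) := by
    rw [sum_comm]
    calc ∑ j : Fin k, ∑ v : V, #{x ∈ T j | ¬ G.Adj v x}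
        = ∑ j : Fin k, ∑ x ∈ T j, #{v | ¬ G.Adj x v} := by
          refine sum_congr rfl fun j _ => ?_
          simp only [card_filter]
          rw [sum_comm]
          refine sum_congr rfl fun x _ => sum_congr rfl fun v _ => ?_
          simp only [G.adj_comm]
      _ ≤ ∑ j : Fin k, ∑ x ∈ T j, q := sum_le_sum fun j _ => sum_le_sum fun x _ => hq x
      _ = k * (t * q) := by simp [hT]
      _ = t * (k * q) := by ring
      _ ≤ t * (n + e) := Nat.mul_le_mul_left _ hkq
  have hsum2 : n * (t - s) + #B * (M + 1) ≤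
      ∑ v : V, ∑ j : Fin k, #{x ∈ T j | ¬ G.Adj v x} := by
    have e1 : n * (t - s) + #B * (M + 1) = ∑ v : V, ((t - s) + if v ∈ B then (M + 1) else 0) := by
      rw [sum_add_distrib, sum_const, card_univ, smul_eq_mul, ← sum_filter]
      simp [hn]
    rw [e1]
    refine sum_le_sum fun v _ => ?_
    have ho := hown v
    rw [← add_sum_erase univ _ (mem_univ (τ v))]
    apply Nat.add_le_add
    · omega
    · split_ifs with hv
      · obtain ⟨j, hj, hMj⟩ := (memB v).1 hv
        refine le_trans hMj (single_le_sum (f := fun j => #{x ∈ T j | ¬ G.Adj v x})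
          (fun _ _ => Nat.zero_le _) (mem_erase.2 ⟨hj, mem_univ _⟩))
      · exact Nat.zero_le _
  have hBL : #B * L ≤ n := by
    have h3 : n * (t - s) + #B * ((s + 1) * L) ≤ t * (n + e) := by
      rw [← hM1]; exact hsum2.trans hsum1
    have h4 : n * (t - s) + n * s = t * n := by
      rw [← Nat.mul_add, Nat.sub_add_cancel hts, Nat.mul_comm]
    have h5 : t * (n + e) = t * n + e * t := by ring
    have h6 : #B * ((s + 1) * L) ≤ (s + 1) * n := by
      have h6' : (s + 1) * n = n * s + n := by ring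
      omega
    have h7 : (s + 1) * (#B * L) ≤ (s + 1) * n := by
      calc (s + 1) * (#B * L) = #B * ((s + 1) * L) := by ring
        _ ≤ _ := h6
    exact Nat.le_of_mul_le_mul_left h7 (by omega)
  -- the good classes
  set U : Fin k → Finset V := fun i => {v | v ∉ B ∧ τ v = i} with hU
  have memU : ∀ i v, v ∈ U i ↔ v ∉ B ∧ τ v = i := fun i v => by simp [hU]
  have good : ∀ i, ∀ u ∈ U i, ∀ j, j ≠ i → #{x ∈ T j | ¬ G.Adj u x} ≤ M := by
    intro i u hu j hj
    rw [memU] at hu
    by_contra hcon
    exact hu.1 ((memB u).2 ⟨j, by rw [hu.2]; exact hj, by omega⟩)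
  have hdeg : ∀ i, ∀ u ∈ U i, #{y ∈ U i | G.Adj u y} < s := by
    intro i u hu
    by_contra hcon
    push Not at hcon
    refine hfree (star_embed T cl v₀ M u i hcl ?_ (good i u hu) {y ∈ U i | G.Adj u y}
      (fun x hx => (mem_filter.1 hx).2) (fun x hx => good i x (mem_filter.1 hx).1) ?_ ?_)
    · intro a b hab x hx
      have : ({y ∈ T b | ¬ G.Adj x y} : Finset V) = ∅ := by
        rw [filter_eq_empty_iff]
        intro y hy h
        exact h (hTadj a b hab x hx y hy)
      rw [this]; simp
    · exact (card_le_univ _).trans (hs ▸ hcon)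
    · intro j
      rw [hT, ht, hM1, hs]
  have hUle : ∀ i, #(U i) ≤ q + s := by
    intro i
    rcases (U i).eq_empty_or_nonempty with h | ⟨u, hu⟩
    · rw [h]; simp
    · have a1 := card_adj_add (G := G) (U i) u
      have a2 := hdeg i u hu
      have a3 : #{y ∈ U i | ¬ G.Adj u y} ≤ #{y | ¬ G.Adj u y} :=
        card_le_card (filter_subset_filter _ (subset_univ _))
      have a4 := hq u
      omega
  have hUsum : ∀ i, n ≤ #B + #(U i) + (k - 1) * (q + s) := by
    intro i
    have a1 : (univ : Finset V) ⊆ B ∪ univ.biUnion U := by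
      intro v _
      by_cases hv : v ∈ B
      · exact mem_union_left _ hv
      · exact mem_union_right _ (mem_biUnion.2 ⟨τ v, mem_univ _, (memU _ _).2 ⟨hv, rfl⟩⟩)
    have a2 : n ≤ #B + ∑ j : Fin k, #(U j) := by
      calc n = #(univ : Finset V) := by rw [card_univ]
        _ ≤ #(B ∪ univ.biUnion U) := card_le_card a1
        _ ≤ #B + #(univ.biUnion U) := card_union_le _ _
        _ ≤ _ := Nat.add_le_add_left card_biUnion_le _
    rw [← add_sum_erase univ _ (mem_univ i)] at a2
    have a3 : ∑ j ∈ univ.erase i, #(U j) ≤ (k - 1) * (q + s) := by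
      refine (sum_le_card_nsmul _ _ (q + s) fun j _ => hUle j).trans ?_
      rw [card_erase_of_mem (mem_univ _), card_univ, Fintype.card_fin, smul_eq_mul]
    omega
  set b₁ := e + k * s + #B with hb₁
  -- `q + (k-1)(q+s) + #B - n`
  have harith : q + (k - 1) * (q + s) + #B + s ≤ n + b₁ := by
    obtain ⟨k', rfl⟩ : ∃ k', k = k' + 1 := ⟨k - 1, by omega⟩
    have e1 : k' + 1 - 1 = k' := by omega
    rw [e1, hb₁]
    have e2 : (k' + 1) * q = k' * q + q := by ring
    have e3 : (k' + 1) * s = k' * s + s := by ring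
    have e4 : k' * (q + s) = k' * q + k' * s := by ring
    rw [e4, e3]
    rw [e2] at hkq
    omega
  have hout : ∀ i, ∀ u ∈ U i, ∀ j, j ≠ i → #{y ∈ U j | ¬ G.Adj u y} ≤ b₁ := by
    intro i u hu j hj
    have a1 := card_adj_add (G := G) (U i) u
    have a2 := hdeg i u hu
    have a3 : #{y ∈ U i | ¬ G.Adj u y} + #{y ∈ U j | ¬ G.Adj u y} ≤ #{y | ¬ G.Adj u y} := by
      rw [← card_union_of_disjoint]
      · exact card_le_card (union_subset (filter_subset_filter _ (subset_univ _))
          (filter_subset_filter _ (subset_univ _)))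
      · rw [Finset.disjoint_left]
        intro y hy1 hy2
        rw [mem_filter, memU] at hy1 hy2
        exact hj (hy2.1.2.symm.trans hy1.1.2)
    have a4 := hq u
    have a5 := hUsum i
    omega
  -- every vertex has few neighbours in one of the classes
  have h6 : ∀ w, ∃ i, #{y ∈ U i | G.Adj w y} < s * (b₁ + 1) ∧ (w ∉ B → τ w = i) := by
    intro w
    by_cases hw : w ∈ B
    · by_contra hcon
      push Not at hcon
      refine hfree (hub_embed U cl v₀ b₁ w hcl ?_ ?_)
      · intro i j hij a ha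
        exact hout i a ha j hij.symm
      · intro j
        rw [← hs]
        by_contra h
        push Not at h
        exact absurd hw (hcon j h).1
    · refine ⟨τ w, ?_, fun _ => rfl⟩
      refine (hdeg (τ w) w ((memU _ _).2 ⟨hw, rfl⟩)).trans_le ?_
      exact Nat.le_mul_of_pos_right _ (by omega)
  choose c hc1 hc2 using h6
  have hUc : ∀ i, ∀ u ∈ U i, c u = i := by
    intro i u hu
    rw [memU] at hu
    rw [← hc2 u hu.1, hu.2]
  set b₂ := (s + 1) * b₁ with hb₂
  refine ⟨c, b₂, ?_, ?_⟩
  · intro w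
    have a1 := card_adj_add (G := G) (U (c w)) w
    have a2 := hc1 w
    have a3 : #{y ∈ U (c w) | ¬ G.Adj w y} + #{y | c y ≠ c w ∧ ¬ G.Adj w y} ≤
        #{y | ¬ G.Adj w y} := by
      rw [← card_union_of_disjoint]
      · refine card_le_card (union_subset (filter_subset_filter _ (subset_univ _)) ?_)
        intro y hy
        rw [mem_filter] at hy ⊢
        exact ⟨hy.1, hy.2.2⟩
      · rw [Finset.disjoint_left]
        intro y hy1 hy2
        rw [mem_filter] at hy1 hy2
        exact hy2.2.1 (hUc _ y hy1.1)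
    have a4 := hq w
    have a5 := hUsum (c w)
    have a6 : s * (b₁ + 1) = s * b₁ + s := by ring
    have a7 : b₂ = s * b₁ + b₁ := by rw [hb₂]; ring
    rw [a6] at a2
    rw [a7]
    omega
  · intro j
    have a0 : U j ⊆ ({y | c y = j} : Finset V) := by
      intro y hy
      rw [mem_filter]
      exact ⟨mem_univ _, hUc j y hy⟩
    refine le_trans ?_ (card_le_card a0)
    have a5 := hUsum j
    have a8 := hbig #B hBL
    rw [← hb₁, ← hb₂] at a8
    -- k n ≤ k B + k U + (k-1)(k q + k s)
    obtain ⟨k', hk'⟩ : ∃ k', k = k' + 1 := ⟨k - 1, by omega⟩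
    have e1 : k - 1 = k' := by omega
    rw [e1] at a5
    have a9 : k * n ≤ k * #B + k * #(U j) + k' * (n + e + k * s) := by
      calc k * n ≤ k * (#B + #(U j) + k' * (q + s)) := Nat.mul_le_mul_left _ a5
        _ = k * #B + k * #(U j) + k' * (k * q + k * s) := by ring
        _ ≤ _ := by
          apply Nat.add_le_add_left
          apply Nat.mul_le_mul_left
          omega
    have a10 : n ≤ k * #(U j) + k * b₁ := by
      have e2 : k * n = k' * n + n := by rw [hk']; ring
      have e3 : k' * (n + e + k * s) = k' * n + k' * (e + k * s) := by ring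
      have e4 : k' * (e + k * s) ≤ k * (e + k * s) := Nat.mul_le_mul_right _ (by omega)
      have e5 : k * b₁ = k * (e + k * s) + k * #B := by rw [hb₁]; ring
      omega
    have a11 : k * (s * (b₂ + 1)) ≤ k * #(U j) := by omega
    exact Nat.le_of_mul_le_mul_left a11 (by omega)

end Pool.Agent.KS6_17.HB
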