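import Mathlib
import Pool.Agent.KS6_17.HB.Struct

set_option autoImplicit false

/-! The structure theorem with the minimum degree as hypothesis. -/

namespace Pool.Agent.KS6_17.HB

open Finset SimpleGraph Filter

open Classical in
/-- The Erdős–Stone theorem (minimum degree form) on an arbitrary vertex set. -/
theorem equipartite_of_minDegree {ε : ℝ} (hε : 0 < ε) (r t : ℕ) :
    ∃ N : ℕ, ∀ (V : Type) [Fintype V] (G : SimpleGraph V), N ≤ Fintype.card V →
      (1 - 1 / (r : ℝ) + ε) * Fintype.card V ≤ (G.minDegree : ℝ) →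
      completeEquipartiteGraph (r + 1) t ⊑ G := by
  obtain ⟨N, hN⟩ := eventually_atTop.1
    (eventually_completeEquipartiteGraph_isContained_of_minDegree hε r t)
  refine ⟨max N 1, fun V _ G hc hd => ?_⟩
  have e := G.overFinIso (rfl : Fintype.card V = Fintype.card V)
  have hne : Nonempty V := Fintype.card_pos_iff.1 (by omega)
  have h1 : G.minDegree ≤ (G.overFin (rfl : Fintype.card V = Fintype.card V)).minDegree :=
    Copy.minDegree_mono (f := e.toCopy) e.surjective
  have h2 := hN (Fintype.card V) (by omega) (G := G.overFin rfl) (by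
    refine le_trans hd ?_
    exact_mod_cast h1)
  exact (isContained_congr_right e).2 h2

open Classical in
/-- Greedy colouring. -/
theorem greedy_coloring {V : Type} [Fintype V] (M : SimpleGraph V) (d : ℕ)
    (hd : ∀ v, #{y | M.Adj v y} < d) : ∃ f : V → Fin d, ∀ x y, M.Adj x y → f x ≠ f y := by
  rcases isEmpty_or_nonempty V with hV | ⟨⟨v₀⟩⟩
  · exact ⟨fun v => isEmptyElim v, fun x => isEmptyElim x⟩
  have hd0 : 0 < d := lt_of_le_of_lt (Nat.zero_le _) (hd v₀)
  have key : ∀ S : Finset V, ∃ f : V → Fin d, ∀ x ∈ S, ∀ y ∈ S, M.Adj x y → f x ≠ f y := by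
    intro S
    induction S using Finset.induction_on with
    | empty => exact ⟨fun _ => ⟨0, hd0⟩, by simp⟩
    | insert v S hv ih =>
      obtain ⟨f, hf⟩ := ih
      obtain ⟨a, -, ha⟩ : ∃ a ∈ (univ : Finset (Fin d)),
          a ∉ (({y | M.Adj v y} : Finset V).image f) := by
        apply exists_mem_notMem_of_card_lt_card
        refine lt_of_le_of_lt card_image_le ?_
        rw [card_univ, Fintype.card_fin]
        exact hd v
      have ha' : ∀ y, M.Adj v y → f y ≠ a := by
        intro y hy h
        exact ha (mem_image.2 ⟨y, by simpa using hy, h⟩)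
      refine ⟨Function.update f v a, fun x hx y hy hxy => ?_⟩
      rcases mem_insert.1 hx with hx' | hx' <;> rcases mem_insert.1 hy with hy' | hy'
      · rw [hx', hy'] at hxy
        exact absurd hxy (M.loopless.irrefl _)
      · have hne : y ≠ v := fun h => hv (h ▸ hy')
        rw [hx'] at hxy
        rw [hx', Function.update_self, Function.update_of_ne hne]
        exact (ha' y hxy).symm
      · have hne : x ≠ v := fun h => hv (h ▸ hx')
        rw [hy'] at hxy
        rw [hy', Function.update_self, Function.update_of_ne hne]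
        exact ha' x hxy.symm
      · have hne : x ≠ v := fun h => hv (h ▸ hx')
        have hne' : y ≠ v := fun h => hv (h ▸ hy')
        rw [Function.update_of_ne hne, Function.update_of_ne hne']
        exact hf x hx' y hy' hxy
  obtain ⟨f, hf⟩ := key univ
  exact ⟨f, fun x y => hf x (mem_univ _) y (mem_univ _)⟩

open Classical in
/-- **Structure theorem.** -/
theorem structure_thm {W : Type} [Fintype W] {H : SimpleGraph W} {k : ℕ} (hk : 2 ≤ k)
    (cl : W → Fin k) (v₀ : W) (hcl : ∀ x y, H.Adj x y → x ≠ v₀ → y ≠ v₀ → cl x ≠ cl y) :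
    ∃ (ε : ℝ) (N : ℕ), 0 < ε ∧ ∀ (V : Type) [Fintype V] (G : SimpleGraph V),
      N ≤ Fintype.card V → H.Free G →
      (1 - 1 / (k : ℝ) - ε) * Fintype.card V ≤ (G.minDegree : ℝ) →
      ∃ (c : V → Fin k) (b : ℕ), (∀ w, #{y | c y ≠ c w ∧ ¬ G.Adj w y} ≤ b) ∧
        ∀ j, Fintype.card W * (b + 1) ≤ #{y | c y = j} := by
  set s := Fintype.card W with hs
  have hs1 : 1 ≤ s := Fintype.card_pos_iff.2 ⟨v₀⟩
  set P := k + k * (s * (s + 1)) with hP
  set L := 4 * P with hL
  have hP1 : 1 ≤ P := by omega
  set t := s * ((s + 1) * L) with ht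
  have ht1 : 1 ≤ t := by
    have : 0 < t := Nat.mul_pos (by omega) (Nat.mul_pos (by omega) (by omega))
    omega
  have htL : L ≤ t := by
    rw [ht, ← Nat.mul_assoc]
    exact Nat.le_mul_of_pos_left _ (Nat.mul_pos (by omega) (by omega))
  have hk0 : (0 : ℝ) < k := by exact_mod_cast (by omega : 0 < k)
  have hk1 : (0 : ℝ) < (k : ℝ) - 1 := by
    have : (2 : ℝ) ≤ k := by exact_mod_cast hk
    linarith
  have ht0 : (0 : ℝ) < t := by exact_mod_cast ht1
  set ε : ℝ := min (1 / (k * t)) ((1 / ((k : ℝ) - 1) - 1 / k) / 2) with hε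
  have hdiff : 0 < 1 / ((k : ℝ) - 1) - 1 / k := by
    have : 1 / (k : ℝ) < 1 / ((k : ℝ) - 1) := by
      apply one_div_lt_one_div_of_lt hk1
      linarith
    linarith
  have hε0 : 0 < ε := lt_min (by positivity) (by linarith)
  have hε1 : ε ≤ 1 / (k * t) := min_le_left _ _
  have hε2 : ε ≤ (1 / ((k : ℝ) - 1) - 1 / k) / 2 := min_le_right _ _
  obtain ⟨N₁, hN₁⟩ := equipartite_of_minDegree
    (ε := 1 / ((k : ℝ) - 1) - 1 / k - ε) (by linarith) (k - 1) t
  refine ⟨ε, max N₁ (2 * ((P + 1) * (k * s)) + 1), hε0, fun V _ G hN hfree hdeg => ?_⟩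
  set n := Fintype.card V with hn
  have hnN : N₁ ≤ n := (le_max_left _ _).trans hN
  have hn2 : 2 * ((P + 1) * (k * s)) + 1 ≤ n := (le_max_right _ _).trans hN
  have hcast : ((k - 1 : ℕ) : ℝ) = (k : ℝ) - 1 := by
    rw [Nat.cast_sub (by omega)]; simp
  have hES : completeEquipartiteGraph (k - 1 + 1) t ⊑ G := by
    apply hN₁ V G hnN
    rw [hcast]
    refine le_trans (le_of_eq ?_) hdeg
    ring
  rw [show k - 1 + 1 = k by omega] at hES
  obtain ⟨f⟩ := hES
  -- the parts
  let T : Fin k → Finset V := fun i => univ.image (fun a : Fin t => f (i, a))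
  have hT : ∀ i, #(T i) = t := by
    intro i
    rw [card_image_of_injective, card_univ, Fintype.card_fin]
    intro a b hab
    have := f.injective hab
    exact (Prod.mk.inj this).2
  have hTadj : ∀ i j, i ≠ j → ∀ a ∈ T i, ∀ b ∈ T j, G.Adj a b := by
    intro i j hij a ha b hb
    obtain ⟨a', -, rfl⟩ := mem_image.1 ha
    obtain ⟨b', -, rfl⟩ := mem_image.1 hb
    apply f.toHom.map_rel
    rw [completeEquipartiteGraph_adj]
    exact hij
  -- the numbers
  set δ := G.minDegree with hδ
  set q := n - δ with hq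
  have hδn : δ ≤ n := by
    have hne : Nonempty V := Fintype.card_pos_iff.1 (by omega)
    exact G.minDegree_lt_card.le
  have hqle : ∀ v, #{y | ¬ G.Adj v y} ≤ q := by
    intro v
    have h1 := card_adj_add (G := G) univ v
    have h2 : #{y | G.Adj v y} = G.degree v := by
      rw [← card_neighborFinset_eq_degree]
      congr 1
      ext y; simp
    have h3 := G.minDegree_le_degree v
    rw [card_univ] at h1
    omega
  set e := ⌊(k : ℝ) * ε * n⌋₊ with he
  have hn0 : (0 : ℝ) ≤ n := Nat.cast_nonneg _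
  have hkq : k * q ≤ n + e := by
    have h1 : ((k * q : ℕ) : ℝ) - n ≤ (k : ℝ) * ε * n := by
      push_cast
      rw [hq, Nat.cast_sub hδn]
      have h2 : (k : ℝ) * ((1 - 1 / (k : ℝ) - ε) * n) ≤ k * δ :=
        mul_le_mul_of_nonneg_left hdeg hk0.le
      have h3 : (k : ℝ) * ((1 - 1 / (k : ℝ) - ε) * n) = k * n - n - k * ε * n := by
        field_simp
      linarith
    have h2 : k * q - n ≤ e := by
      rw [he]
      apply Nat.le_floor
      rcases le_total n (k * q) with h | h
      · rw [Nat.cast_sub h]; exact h1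
      · rw [Nat.sub_eq_zero_of_le h, Nat.cast_zero]; positivity
    omega
  have het : e * t ≤ n := by
    have h1 : (e : ℝ) ≤ (k : ℝ) * ε * n := Nat.floor_le (by positivity)
    have h2 : (k : ℝ) * ε * t ≤ 1 := by
      calc (k : ℝ) * ε * t = ε * (k * t) := by ring
        _ ≤ 1 / (k * t) * (k * t) := mul_le_mul_of_nonneg_right hε1 (by positivity)
        _ = 1 := by field_simp
    have h3 : ((e * t : ℕ) : ℝ) ≤ n := by
      push_cast
      calc (e : ℝ) * t ≤ (k : ℝ) * ε * n * t := mul_le_mul_of_nonneg_right h1 ht0.le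
        _ = (k : ℝ) * ε * t * n := by ring
        _ ≤ 1 * n := mul_le_mul_of_nonneg_right h2 hn0
        _ = n := one_mul _
    exact_mod_cast h3
  have heL : e * L ≤ n := (Nat.mul_le_mul_left _ htL).trans het
  refine partition cl v₀ hcl hfree T hTadj s L t q e hs hs1 (by omega) (by omega) ht hT hqle hkq
    het ?_
  intro z hz
  -- `P (e + k s + z) + k s ≤ n`
  have e1 : k * (e + k * s + z) + k * (s * ((s + 1) * (e + k * s + z) + 1)) =
      P * e + P * z + (P + 1) * (k * s) - (k * s) + k * s := by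
    rw [hP]
    rw [Nat.sub_add_cancel]
    · ring
    · exact (Nat.le_mul_of_pos_left _ (by omega)).trans (Nat.le_add_left _ _)
  have e2 : k * (e + k * s + z) + k * (s * ((s + 1) * (e + k * s + z) + 1)) ≤
      P * e + P * z + (P + 1) * (k * s) := by
    have : k * s ≤ P * e + P * z + (P + 1) * (k * s) :=
      (Nat.le_mul_of_pos_left _ (by omega)).trans (Nat.le_add_left _ _)
    omega
  have e3 : 4 * (P * e) ≤ n := by
    calc 4 * (P * e) = e * L := by rw [hL]; ring
      _ ≤ n := heL
  have e4 : 4 * (P * z) ≤ n := by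
    calc 4 * (P * z) = z * L := by rw [hL]; ring
      _ ≤ n := hz
  omega

end Pool.Agent.KS6_17.HB
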