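import Mathlib
import Pool.Agent.KS6_17.HB.Thresh
import Pool.Agent.KS6_17.HB.Defs

set_option autoImplicit false

/-! The homomorphism threshold of a graph with a critical vertex. -/

namespace Pool.Agent.KS6_17.HB

open Finset SimpleGraph

/-- A colouring of `H - v₀` as a function on all vertices. -/
theorem exists_cl {W : Type} {H : SimpleGraph W} {k : ℕ} (hk : 2 ≤ k)
    (h : HasCriticalVertex H k) : ∃ (v₀ : W) (cl : W → Fin k),
      ∀ x y, H.Adj x y → x ≠ v₀ → y ≠ v₀ → cl x ≠ cl y := by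
  classical
  obtain ⟨v₀, ⟨c⟩⟩ := h
  refine ⟨v₀, fun x => if hx : x ≠ v₀ then c ⟨x, by simpa using hx⟩ else ⟨0, by omega⟩, ?_⟩
  intro x y hxy hx hy
  simp only [dif_pos hx, dif_pos hy]
  exact c.valid (by simpa using hxy)

/-- Neighbours in the own class. -/
theorem indeg {V W : Type} [Fintype V] [DecidableEq V] [Fintype W] [DecidableEq W]
    {G : SimpleGraph V} [DecidableRel G.Adj] {H : SimpleGraph W} [DecidableRel H.Adj] {k : ℕ}
    (cl : W → Fin k) (v₀ : W) (hcl : ∀ x y, H.Adj x y → x ≠ v₀ → y ≠ v₀ → cl x ≠ cl y)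
    (hfree : H.Free G) (c : V → Fin k) (b : ℕ)
    (h1 : ∀ w, #{y | c y ≠ c w ∧ ¬ G.Adj w y} ≤ b)
    (h2 : ∀ j, Fintype.card W * (b + 1) ≤ #{y | c y = j}) (i₀ : Fin k) (w : V) :
    #{y | G.Adj w y ∧ c y = c w} < #{x | H.Adj v₀ x ∧ cl x = i₀} := by
  by_contra hcon
  push Not at hcon
  have hA : ∀ i j, i ≠ j → ∀ a, c a = i →
      #{y ∈ ({y | c y = j} : Finset V) | ¬ G.Adj a y} ≤ b := by
    intro i j hij a ha
    refine (card_le_card ?_).trans (h1 a)
    intro y hy
    rw [mem_filter, mem_filter] at hy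
    rw [mem_filter]
    refine ⟨mem_univ _, ?_, hy.2⟩
    rw [hy.1.2, ha]
    exact hij.symm
  refine hfree (star_embed (fun j => {y | c y = j}) (fun x => Equiv.swap i₀ (c w) (cl x)) v₀ b w
    (c w) ?_ ?_ ?_ {y | G.Adj w y ∧ c y = c w} ?_ ?_ ?_ h2)
  · intro x y hxy hx hy h
    exact hcl x y hxy hx hy ((Equiv.swap i₀ (c w)).injective h)
  · intro i j hij a ha
    exact hA i j hij a (mem_filter.1 ha).2
  · intro j hj
    exact hA (c w) j hj.symm w rfl
  · intro x hx
    exact (mem_filter.1 hx).2.1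
  · intro x hx j hj
    exact hA (c w) j hj.symm x (mem_filter.1 hx).2.2
  · refine le_trans (le_of_eq ?_) hcon
    congr 1
    ext x
    rw [mem_filter, mem_filter, Equiv.swap_apply_eq_iff, Equiv.swap_apply_right]

/-- The disjoint union of all `H`-free graphs on the vertex set `Fin N`. -/
def bigTarget {W : Type} (H : SimpleGraph W) (N : ℕ) :
    SimpleGraph ({A : SimpleGraph (Fin N) // H.Free A} × Fin N) where
  Adj x y := x.1 = y.1 ∧ x.1.1.Adj x.2 y.2
  symm := ⟨fun x y h => ⟨h.1.symm, by rw [← h.1]; exact h.2.symm⟩⟩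
  loopless := ⟨fun x h => h.2.ne rfl⟩

theorem bigTarget_free {W : Type} {H : SimpleGraph W} (hconn : H.Connected) (N : ℕ) :
    H.Free (bigTarget H N) := by
  rintro ⟨f⟩
  obtain ⟨w₀⟩ := hconn.nonempty
  have hadj : ∀ x y, H.Adj x y → (bigTarget H N).Adj (f x) (f y) :=
    fun x y h => f.toHom.map_rel h
  have hconst : ∀ x y, (f x).1 = (f y).1 := by
    intro x y
    obtain ⟨p⟩ := hconn.preconnected x y
    induction p with
    | nil => rfl
    | cons h p ih => exact (hadj _ _ h).1.trans ih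
  refine (f w₀).1.2 ⟨⟨⟨fun w => (f w).2, fun {x y} h => ?_⟩, fun x y h => ?_⟩⟩
  · have := (hadj x y h).2
    rw [hconst x w₀] at this
    exact this
  · exact f.injective (Prod.ext (hconst x y) h)

theorem map_free {V V' W : Type} {H : SimpleGraph W} (hconn : H.Connected)
    {G : SimpleGraph V} (e : V ↪ V') (hG : H.Free G) (hV : Nonempty V) : H.Free (G.map e) := by
  classical
  rintro ⟨f⟩
  rcases subsingleton_or_nontrivial W with hW | hW
  · -- one vertex
    obtain ⟨v⟩ := hV
    exact hG ⟨⟨⟨fun _ => v, fun {x y} h => absurd (hW.elim x y) h.ne⟩,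
      fun x y _ => hW.elim x y⟩⟩
  have hr : ∀ w, ∃ v, e v = f w := by
    intro w
    obtain ⟨w', hw'⟩ := hconn.preconnected.exists_adj_of_nontrivial w
    have h1 : (G.map e).Adj (f w) (f w') := f.toHom.map_rel hw'
    rw [SimpleGraph.map_adj] at h1
    obtain ⟨v, _, -, hv, -⟩ := h1
    exact ⟨v, hv⟩
  choose g hg using hr
  refine hG ⟨⟨⟨g, fun {x y} h => ?_⟩, fun x y h => ?_⟩⟩
  · have h1 : (G.map e).Adj (f x) (f y) := f.toHom.map_rel h
    rw [← hg x, ← hg y, SimpleGraph.map_adj_apply] at h1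
    exact h1
  · apply f.injective
    have h' : g x = g y := h
    show f x = f y
    rw [← hg x, ← hg y, h']

theorem hom_bigTarget {V W : Type} {H : SimpleGraph W} (hconn : H.Connected) {G : SimpleGraph V}
    {N : ℕ} (e : V ↪ Fin N) (hG : H.Free G) : Nonempty (G →g bigTarget H N) := by
  rcases isEmpty_or_nonempty V with hV | hV
  · exact ⟨⟨fun v => isEmptyElim v, fun {x} => isEmptyElim x⟩⟩
  · exact ⟨⟨fun v => (⟨G.map e, map_free hconn e hG hV⟩, e v), fun hab =>
      ⟨rfl, (SimpleGraph.map_adj_apply).2 hab⟩⟩⟩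

/-- **The homomorphism threshold of a graph with a critical vertex.** -/
theorem deltaHom_lt {W : Type} [Fintype W] (H : SimpleGraph W) (hconn : H.Connected) {k : ℕ}
    (hk : 2 ≤ k) (hv : HasCriticalVertex H k) : deltaHom H < 1 - 1 / (k : ℝ) := by
  classical
  obtain ⟨v₀, cl, hcl⟩ := exists_cl hk hv
  obtain ⟨ε, N, hε, hS⟩ := structure_thm hk cl v₀ hcl
  set ε' := min ε (1 / 2) with hε'
  have hε'0 : 0 < ε' := lt_min hε (by norm_num)
  have hε'1 : ε' ≤ ε := min_le_left _ _
  have hε'2 : ε' ≤ 1 / 2 := min_le_right _ _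
  have hk0 : (2 : ℝ) ≤ k := by exact_mod_cast hk
  have hk2 : 1 / (k : ℝ) ≤ 1 / 2 := one_div_le_one_div_of_le (by norm_num) hk0
  refine lt_of_le_of_lt (b := 1 - 1 / (k : ℝ) - ε') ?_ (by linarith)
  refine csInf_le ⟨0, fun α h => h.1⟩ ⟨by linarith, ?_⟩
  -- the class of the colouring with the least number of neighbours of `v₀`
  have hne : (univ : Finset (Fin k)).Nonempty := ⟨⟨0, by omega⟩, mem_univ _⟩
  obtain ⟨i₀, -, hi₀⟩ := exists_min_image univ
    (fun i : Fin k => #{x | H.Adj v₀ x ∧ cl x = i}) hne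
  set d := #{x | H.Adj v₀ x ∧ cl x = i₀} with hd
  have hkd : k * d < Fintype.card W := by
    have h1 : k * d ≤ ∑ i : Fin k, #{x | H.Adj v₀ x ∧ cl x = i} := by
      calc k * d = ∑ _i : Fin k, d := by simp
        _ ≤ _ := sum_le_sum fun i hi => hi₀ i hi
    have h2 : ∑ i : Fin k, #{x | H.Adj v₀ x ∧ cl x = i} = #{x | H.Adj v₀ x} := by
      rw [card_eq_sum_card_fiberwise (f := cl) (t := univ) (fun _ _ => mem_coe.2 (mem_univ _))]
      refine sum_congr rfl fun i _ => ?_
      rw [filter_filter]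
    have h3 : #{x | H.Adj v₀ x} < Fintype.card W := by
      rw [← card_univ]
      apply card_lt_card
      rw [ssubset_univ_iff]
      intro h
      have : v₀ ∈ ({x | H.Adj v₀ x} : Finset W) := by rw [h]; exact mem_univ _
      simp at this
    omega
  refine ⟨_, inferInstance, bigTarget H (max N (k * d)), bigTarget_free hconn _, ?_⟩
  intro V _ G hG hdeg
  rcases lt_or_ge (Fintype.card V) N with hlt | hge
  · obtain ⟨e⟩ : Nonempty (V ↪ Fin (max N (k * d))) := by
      apply Function.Embedding.nonempty_of_card_le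
      rw [Fintype.card_fin]
      omega
    exact hom_bigTarget hconn e hG
  · obtain ⟨c, b, h1, h2⟩ := hS V G hge hG (by
      refine le_trans ?_ hdeg
      apply mul_le_mul_of_nonneg_right _ (Nat.cast_nonneg _)
      linarith)
    have h3 := indeg cl v₀ hcl hG c b h1 h2 i₀
    obtain ⟨f, hf⟩ := greedy_coloring
      ({ Adj := fun x y => G.Adj x y ∧ c y = c x
         symm := ⟨fun x y h => ⟨h.1.symm, h.2.symm⟩⟩
         loopless := ⟨fun x h => h.1.ne rfl⟩ } : SimpleGraph V) d (fun v => by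
        convert h3 v)
    let g : G →g (⊤ : SimpleGraph (Fin k × Fin d)) :=
      ⟨fun v => (c v, f v), fun {x y} h => by
        rw [top_adj]
        intro hcon
        rw [Prod.mk.injEq] at hcon
        exact hf x y ⟨h, hcon.1.symm⟩ hcon.2⟩
    have htop : H.Free (⊤ : SimpleGraph (Fin k × Fin d)) := by
      rintro ⟨φ⟩
      have := Fintype.card_le_of_injective _ φ.injective
      rw [Fintype.card_prod, Fintype.card_fin, Fintype.card_fin] at this
      omega
    obtain ⟨e⟩ : Nonempty ((Fin k × Fin d) ↪ Fin (max N (k * d))) := by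
      apply Function.Embedding.nonempty_of_card_le
      rw [Fintype.card_fin, Fintype.card_prod, Fintype.card_fin, Fintype.card_fin]
      omega
    obtain ⟨ψ⟩ := hom_bigTarget hconn e htop
    exact ⟨ψ.comp g⟩

end Pool.Agent.KS6_17.HB
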