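import Mathlib
import Pool.Agent.KS6_17.HB.Hom

set_option autoImplicit false

/-! The blowup threshold of a graph with a critical vertex: upper bound `1 - 1/k`, and the lower
bound `1 - 1/k` for the graphs which are not match-colourable. -/

namespace Pool.Agent.KS6_17.HB

open Finset SimpleGraph

/-- The complete `k`-partite graph with classes of size `2 m` and a perfect matching in the
class `i₀`. -/
def matched {k : ℕ} (i₀ : Fin k) (m : ℕ) : SimpleGraph (Fin k × (Fin m × Bool)) where
  Adj x y := x.1 ≠ y.1 ∨ (x.1 = i₀ ∧ y.1 = i₀ ∧ x.2.1 = y.2.1 ∧ x.2.2 ≠ y.2.2)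
  symm := ⟨fun x y h => by
    rcases h with h | ⟨h1, h2, h3, h4⟩
    · exact Or.inl h.symm
    · exact Or.inr ⟨h2, h1, h3.symm, h4.symm⟩⟩
  loopless := ⟨fun x h => by
    rcases h with h | ⟨_, _, _, h⟩
    · exact h rfl
    · exact h rfl⟩

theorem matched_free {W : Type} {H : SimpleGraph W} {k : ℕ} (hH : ¬ MatchColorable H k)
    (i₀ : Fin k) (m : ℕ) : H.Free (matched i₀ m) := by
  rintro ⟨f⟩
  have hadj : ∀ x y, H.Adj x y → (matched i₀ m).Adj (f x) (f y) := fun x y h => f.toHom.map_rel h
  refine hH ⟨i₀, fun w => (f w).1, ?_, ?_⟩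
  · intro x y hxy h
    rcases hadj x y hxy with h' | h'
    · exact absurd h h'
    · exact h'.1
  · intro x y z hx hy hz hxy hxz
    have h1 := hadj x y hxy
    have h2 := hadj x z hxz
    rcases h1 with h1 | ⟨_, _, h3, h4⟩
    · exact absurd (hx.trans hy.symm) h1
    rcases h2 with h2 | ⟨_, _, h5, h6⟩
    · exact absurd (hx.trans hz.symm) h2
    apply f.injective
    refine Prod.ext (hy.trans hz.symm) (Prod.ext (h3.symm.trans h5) ?_)
    revert h4 h6
    cases (f x).2.2 <;> cases (f y).2.2 <;> cases (f z).2.2 <;> simp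

/-- Every `H`-free graph on a finite set is contained in a maximal one. -/
theorem exists_maximalFree {V W : Type} [Finite V] {H : SimpleGraph W} {G : SimpleGraph V}
    (hG : H.Free G) : ∃ G', G ≤ G' ∧ MaximalFree H G' := by
  obtain ⟨G', hle, hmax⟩ := Set.Finite.exists_le_maximal (s := {G' : SimpleGraph V | H.Free G'})
    (Set.toFinite _) hG
  refine ⟨G', hle, hmax.prop, fun u v huv hadj hfree => ?_⟩
  have h1 := hmax.le_of_ge hfree le_sup_left
  apply hadj
  apply h1
  rw [SimpleGraph.sup_adj]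
  right
  rw [SimpleGraph.edge_adj]
  exact ⟨Or.inl ⟨rfl, rfl⟩, huv⟩

theorem card_class {k m : ℕ} (i : Fin k) :
    #({y | y.1 = i} : Finset (Fin k × (Fin m × Bool))) = 2 * m := by
  have h1 : ({y | y.1 = i} : Finset (Fin k × (Fin m × Bool))) =
      (univ : Finset (Fin m × Bool)).image (fun a => (i, a)) := by
    ext y
    simp only [mem_filter, mem_univ, true_and, mem_image]
    constructor
    · intro h
      exact ⟨y.2, by rw [← h]⟩
    · rintro ⟨a, rfl⟩
      rfl
  rw [h1, card_image_of_injective _ (fun a b h => (Prod.mk.inj h).2), card_univ]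
  simp [mul_comm]

/-- The lower bound for the blowup threshold. -/
theorem not_blowupProp {W : Type} [Fintype W] {H : SimpleGraph W} {k : ℕ} (hk : 2 ≤ k)
    (hv : HasCriticalVertex H k) (hH : ¬ MatchColorable H k) {α : ℝ} (hα : α ≤ 1 - 1 / (k : ℝ)) :
    ¬ BlowupProp H α := by
  classical
  rintro ⟨C, hC⟩
  obtain ⟨v₀, cl, hcl⟩ := exists_cl hk hv
  set s := Fintype.card W with hs
  have hs1 : 1 ≤ s := Fintype.card_pos_iff.2 ⟨v₀⟩
  set m := (C + 1) * s with hm
  have hm1 : s ≤ m := Nat.le_mul_of_pos_left _ (by omega)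
  set i₀ : Fin k := ⟨0, by omega⟩
  obtain ⟨G, hle, hmax⟩ := exists_maximalFree (matched_free hH i₀ m)
  have hcross : ∀ x y : Fin k × (Fin m × Bool), x.1 ≠ y.1 → G.Adj x y :=
    fun x y h => hle (Or.inl h)
  have hcard : Fintype.card (Fin k × (Fin m × Bool)) = k * (2 * m) := by
    simp [mul_comm]
  obtain ⟨W', _, F, hW', π, -, hπ⟩ := hC _ G hmax (by
    have hne : Nonempty (Fin k × (Fin m × Bool)) := ⟨(i₀, ⟨⟨0, by omega⟩, true⟩)⟩
    have h1 : k * (2 * m) - 2 * m ≤ G.minDegree := by
      apply G.le_minDegree_of_forall_le_degree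
      intro v
      have h2 : ({y | y.1 = v.1} : Finset (Fin k × (Fin m × Bool)))ᶜ ⊆ G.neighborFinset v := by
        intro y hy
        rw [mem_compl, mem_filter] at hy
        rw [mem_neighborFinset]
        apply hcross
        intro h
        exact hy ⟨mem_univ _, h.symm⟩
      have h3 := card_le_card h2
      rw [card_compl, card_class, hcard, card_neighborFinset_eq_degree] at h3
      exact h3
    have h4 : ((k * (2 * m) - 2 * m : ℕ) : ℝ) ≤ (G.minDegree : ℝ) := by exact_mod_cast h1
    refine le_trans ?_ h4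
    rw [Nat.cast_sub (Nat.le_mul_of_pos_left _ (by omega)), hcard]
    push_cast
    have hk0 : (0 : ℝ) < k := by exact_mod_cast (by omega : 0 < k)
    have hm0 : (0 : ℝ) ≤ m := Nat.cast_nonneg _
    calc α * (k * (2 * (m : ℝ))) ≤ (1 - 1 / (k : ℝ)) * (k * (2 * m)) :=
          mul_le_mul_of_nonneg_right hα (by positivity)
      _ = k * (2 * m) - 2 * m := by field_simp)
  -- bounded degree in the classes
  have hdeg : ∀ w : Fin k × (Fin m × Bool), #{y | G.Adj w y ∧ y.1 = w.1} < s := by
    intro w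
    by_contra hcon
    push Not at hcon
    have hz : ∀ x : Fin k × (Fin m × Bool), ∀ j, j ≠ x.1 →
        #{y ∈ ({y | y.1 = j} : Finset (Fin k × (Fin m × Bool))) | ¬ G.Adj x y} ≤ 0 := by
      intro x j hj
      rw [Nat.le_zero, card_eq_zero, filter_eq_empty_iff]
      intro y hy h
      rw [mem_filter] at hy
      exact h (hcross x y (by rw [hy.2]; exact hj.symm))
    refine hmax.1 (star_embed (fun j => {y | y.1 = j}) cl v₀ 0 w w.1 hcl ?_ ?_
      {y | G.Adj w y ∧ y.1 = w.1} ?_ ?_ ?_ ?_)
    · intro i j hij a ha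
      rw [mem_filter] at ha
      exact hz a j (by rw [ha.2]; exact hij.symm)
    · intro j hj
      exact hz w j hj
    · intro x hx
      exact (mem_filter.1 hx).2.1
    · intro x hx j hj
      rw [mem_filter] at hx
      exact hz x j (by rw [hx.2.2]; exact hj)
    · exact (card_le_univ _).trans hcon
    · intro j
      rw [card_class]
      omega
  -- the classes of the blowup are small on the class `i₀`
  have hfib : ∀ w' : W', #{y : Fin k × (Fin m × Bool) | y.1 = i₀ ∧ π y = w'} ≤ s := by
    intro w'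
    rcases ({y : Fin k × (Fin m × Bool) | y.1 = i₀ ∧ π y = w'} :
      Finset (Fin k × (Fin m × Bool))).eq_empty_or_nonempty with h | ⟨x, hx⟩
    · rw [h]; simp
    · rw [mem_filter] at hx
      set x' : Fin k × (Fin m × Bool) := (x.1, (x.2.1, !x.2.2)) with hx'
      have hxx : G.Adj x' x := hle (Or.inr ⟨hx.2.1, hx.2.1, rfl, by simp [hx']⟩)
      refine le_trans (card_le_card ?_) (hdeg x').le
      intro y hy
      rw [mem_filter] at hy ⊢
      refine ⟨mem_univ _, ?_, ?_⟩
      · rw [hπ, hy.2.2, ← hx.2.2, ← hπ]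
        exact hxx
      · rw [hy.2.1]
        exact hx.2.1.symm
  have hsum : 2 * m ≤ C * s := by
    rw [← card_class (m := m) i₀]
    rw [card_eq_sum_card_fiberwise (f := π) (t := univ) (fun _ _ => mem_coe.2 (mem_univ _))]
    calc ∑ w' : W', #{y ∈ ({y | y.1 = i₀} : Finset (Fin k × (Fin m × Bool))) | π y = w'}
        ≤ ∑ _w' : W', s := sum_le_sum fun w' _ => by
          rw [filter_filter]
          exact hfib w'
      _ = Fintype.card W' * s := by simp
      _ ≤ C * s := Nat.mul_le_mul_right _ hW'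
  have h5 : m = C * s + s := by rw [hm]; ring
  omega

/-- Above `1 - 1/k` the blowup property is trivial. -/
theorem blowupProp_of_gt {W : Type} [Fintype W] {H : SimpleGraph W} {k : ℕ} (hk : 2 ≤ k)
    (hv : HasCriticalVertex H k) {α : ℝ} (hα : 1 - 1 / (k : ℝ) < α) : BlowupProp H α := by
  classical
  obtain ⟨v₀, cl, hcl⟩ := exists_cl hk hv
  obtain ⟨N, hN⟩ := equipartite_of_minDegree (ε := α - (1 - 1 / (k : ℝ))) (by linarith) k
    (Fintype.card W)
  refine ⟨N, fun V _ G hG hdeg => ⟨V, inferInstance, G, ?_, id, Function.surjective_id,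
    fun u v => Iff.rfl⟩⟩
  by_contra hcon
  push Not at hcon
  apply hG.1
  have h1 := hN V G hcon.le (by
    refine le_trans (le_of_eq ?_) hdeg
    ring)
  refine IsContained.trans ?_ h1
  let c : H.Coloring (Fin (k + 1)) := Coloring.mk
    (fun w => if w = v₀ then Fin.last k else (cl w).castSucc) (by
      intro x y hxy h
      by_cases hx : x = v₀ <;> by_cases hy : y = v₀
      · exact hxy.ne (hx.trans hy.symm)
      · simp only [if_pos hx, if_neg hy] at h
        exact absurd h.symm (Fin.castSucc_lt_last _).ne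
      · simp only [if_pos hy, if_neg hx] at h
        exact absurd h (Fin.castSucc_lt_last _).ne
      · simp only [if_neg hx, if_neg hy] at h
        exact hcl x y hxy hx hy (Fin.castSucc_injective _ h))
  refine isContained_completeEquipartiteGraph_of_colorable c _ fun a => ?_
  exact Fintype.card_le_of_injective _ Subtype.val_injective

theorem deltaB_le {W : Type} [Fintype W] {H : SimpleGraph W} {k : ℕ} (hk : 2 ≤ k)
    (hv : HasCriticalVertex H k) : deltaB H ≤ 1 - 1 / (k : ℝ) := by
  have hk0 : (2 : ℝ) ≤ k := by exact_mod_cast hk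
  have hk2 : 1 / (k : ℝ) ≤ 1 / 2 := one_div_le_one_div_of_le (by norm_num) hk0
  apply le_of_forall_pos_le_add
  intro ε hε
  exact csInf_le ⟨0, fun α h => h.1⟩ ⟨by linarith, blowupProp_of_gt hk hv (by linarith)⟩

theorem le_deltaB {W : Type} [Fintype W] {H : SimpleGraph W} {k : ℕ} (hk : 2 ≤ k)
    (hv : HasCriticalVertex H k) (hH : ¬ MatchColorable H k) : 1 - 1 / (k : ℝ) ≤ deltaB H := by
  have hk0 : (2 : ℝ) ≤ k := by exact_mod_cast hk
  have hk2 : 0 ≤ 1 / (k : ℝ) := by positivity
  refine le_csInf ⟨1 + 1, by norm_num, blowupProp_of_gt hk hv (by linarith)⟩ ?_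
  rintro α ⟨-, hα⟩
  by_contra hcon
  push Not at hcon
  exact not_blowupProp hk hv hH hcon.le hα

end Pool.Agent.KS6_17.HB
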