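import Mathlib
import Pool.Agent.KS6_17.HB.Blow

set_option autoImplicit false

/-! The blowup threshold of a match-colourable graph with a critical vertex is less than
`1 - 1/k`. -/

namespace Pool.Agent.KS6_17.HB

open Finset SimpleGraph

/-- Twin classes give a blowup. -/
theorem blowup_of_twins {V Q : Type} [Finite V] [Fintype Q] (G : SimpleGraph V) (π : V → Q)
    (h : ∀ u u' v, π u = π u' → G.Adj u v → G.Adj u' v) :
    ∃ (W : Type) (_ : Fintype W) (F : SimpleGraph W), Fintype.card W ≤ Fintype.card Q ∧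
      IsBlowup G F := by
  classical
  have hrep : ∀ p : Set.range π, ∃ v, π v = p.1 := fun p => p.2
  choose r hr using hrep
  let F : SimpleGraph (Set.range π) :=
    { Adj := fun p q => G.Adj (r p) (r q)
      symm := ⟨fun p q h => h.symm⟩
      loopless := ⟨fun p h => h.ne rfl⟩ }
  refine ⟨Set.range π, inferInstance, F, ?_, Set.rangeFactorization π,
    Set.rangeFactorization_surjective, fun u v => ?_⟩
  · exact Fintype.card_le_of_injective (Subtype.val : Set.range π → Q) Subtype.val_injective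
  · have e1 : π (r (Set.rangeFactorization π u)) = π u := hr _
    have e2 : π (r (Set.rangeFactorization π v)) = π v := hr _
    constructor
    · intro huv
      exact (h _ _ _ e2.symm (h _ _ _ e1.symm huv).symm).symm
    · intro huv
      exact (h _ _ _ e2 (h _ _ _ e1 huv).symm).symm

variable {V W : Type} [Fintype V] [DecidableEq V] [Fintype W] [DecidableEq W]
  {G : SimpleGraph V} [DecidableRel G.Adj] {H : SimpleGraph W} [DecidableRel H.Adj] {k : ℕ}

/-- Greedy choice of a matching in a class. -/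
theorem exists_pairs (c : V → Fin k) (i : Fin k) (s : ℕ) (hs : Fintype.card W ≤ s)
    (hdeg : ∀ w, #{y | G.Adj w y ∧ c y = c w} < s)
    (hX : 2 * (s * s) < #{v | c v = i ∧ ∃ y, G.Adj v y ∧ c y = c v}) (T : Finset W) :
    ∃ P : W → V × V, (∀ w ∈ T, c (P w).1 = i ∧ c (P w).2 = i ∧ G.Adj (P w).1 (P w).2) ∧
      ∀ w ∈ T, ∀ w' ∈ T, w ≠ w' → (P w).1 ≠ (P w').1 ∧ (P w).1 ≠ (P w').2 ∧
        (P w).2 ≠ (P w').2 := by
  induction T using Finset.induction_on with
  | empty =>
    obtain ⟨v, -⟩ : ({v | c v = i ∧ ∃ y, G.Adj v y ∧ c y = c v} : Finset V).Nonempty := by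
      rw [← card_pos]; omega
    exact ⟨fun _ => (v, v), by simp, by simp⟩
  | insert w T hw ih =>
    obtain ⟨P, h1, h2⟩ := ih
    set Z : Finset V := T.image (fun w => (P w).1) ∪ T.image (fun w => (P w).2) with hZ
    have hT : #T + 1 ≤ s := by
      rw [← card_insert_of_notMem hw]
      exact (card_le_univ _).trans hs
    have hZc : #Z ≤ 2 * #T := by
      refine (card_union_le _ _).trans ?_
      have a1 : #(T.image (fun w => (P w).1)) ≤ #T := card_image_le
      have a2 : #(T.image (fun w => (P w).2)) ≤ #T := card_image_le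
      omega
    obtain ⟨x, hx, hxZ⟩ : ∃ x ∈ ({v | c v = i ∧ ∃ y, G.Adj v y ∧ c y = c v} : Finset V),
        x ∉ Z ∪ Z.biUnion (fun z => ({y | G.Adj z y ∧ c y = c z} : Finset V)) := by
      apply exists_mem_notMem_of_card_lt_card
      refine lt_of_le_of_lt ?_ hX
      refine (card_union_le _ _).trans ?_
      have a1 : #(Z.biUnion (fun z => ({y | G.Adj z y ∧ c y = c z} : Finset V))) ≤
          #Z * (s - 1) := by
        apply card_biUnion_le_card_mul
        intro z _
        have := hdeg z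
        omega
      obtain ⟨s', rfl⟩ : ∃ s', s = s' + 1 := ⟨s - 1, by omega⟩
      have e1 : s' + 1 - 1 = s' := by omega
      rw [e1] at a1
      have a3 : #Z ≤ 2 * s' := by omega
      have a4 : #Z * s' ≤ 2 * s' * s' := Nat.mul_le_mul_right _ a3
      have a5 : 2 * ((s' + 1) * (s' + 1)) = 2 * s' * s' + 4 * s' + 2 := by ring
      omega
    rw [mem_filter] at hx
    obtain ⟨-, hxi, y, hxy, hyx⟩ := hx
    rw [mem_union, not_or, mem_biUnion, not_exists] at hxZ
    have hyZ : y ∉ Z := by
      intro hy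
      apply hxZ.2 y
      refine ⟨hy, ?_⟩
      rw [mem_filter]
      exact ⟨mem_univ _, hxy.symm, hyx.symm⟩
    have hP1 : ∀ w' ∈ T, (P w').1 ∈ Z := fun w' h =>
      mem_union_left _ (mem_image.2 ⟨w', h, rfl⟩)
    have hP2 : ∀ w' ∈ T, (P w').2 ∈ Z := fun w' h =>
      mem_union_right _ (mem_image.2 ⟨w', h, rfl⟩)
    have hne : ∀ w' ∈ T, w' ≠ w := fun w' h h' => hw (h' ▸ h)
    refine ⟨Function.update P w (x, y), ?_, ?_⟩
    · intro w' hw'
      rcases mem_insert.1 hw' with rfl | h
      · rw [Function.update_self]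
        exact ⟨hxi, hyx.trans hxi, hxy⟩
      · rw [Function.update_of_ne (hne w' h)]
        exact h1 w' h
    · intro a ha a' ha' haa
      rcases mem_insert.1 ha with h | h <;> rcases mem_insert.1 ha' with h' | h'
      · exact absurd (h.trans h'.symm) haa
      · rw [h, Function.update_self, Function.update_of_ne (hne a' h')]
        refine ⟨fun e => hxZ.1 ?_, fun e => hxZ.1 ?_, fun e => hyZ ?_⟩
        · have e' : x = (P a').1 := e
          rw [e']; exact hP1 a' h'
        · have e' : x = (P a').2 := e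
          rw [e']; exact hP2 a' h'
        · have e' : y = (P a').2 := e
          rw [e']; exact hP2 a' h'
      · rw [h', Function.update_self, Function.update_of_ne (hne a h)]
        refine ⟨fun e => hxZ.1 ?_, fun e => hyZ ?_, fun e => hyZ ?_⟩
        · have e' : (P a).1 = x := e
          rw [← e']; exact hP1 a h
        · have e' : (P a).1 = y := e
          rw [← e']; exact hP1 a h
        · have e' : (P a).2 = y := e
          rw [← e']; exact hP2 a h
      · rw [Function.update_of_ne (hne a h), Function.update_of_ne (hne a' h')]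
        exact h2 a h a' h' haa

/-- Few vertices have neighbours in their own class. -/
theorem few_inner (hfree : H.Free G) (c : V → Fin k) (b : ℕ)
    (h1 : ∀ w, #{y | c y ≠ c w ∧ ¬ G.Adj w y} ≤ b)
    (h2 : ∀ j, Fintype.card W * (b + 1) ≤ #{y | c y = j})
    (hdeg : ∀ w, #{y | G.Adj w y ∧ c y = c w} < Fintype.card W)
    (i₀ : Fin k) (c' : W → Fin k) (hc1 : ∀ x y, H.Adj x y → c' x = c' y → c' x = i₀)
    (hc2 : ∀ x y z, c' x = i₀ → c' y = i₀ → c' z = i₀ → H.Adj x y → H.Adj x z → y = z)
    (i : Fin k) : #{v | c v = i ∧ ∃ y, G.Adj v y ∧ c y = c v} ≤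
      2 * (Fintype.card W * Fintype.card W) := by
  by_contra hcon
  push Not at hcon
  obtain ⟨P, hP1, hP2⟩ := exists_pairs c i (Fintype.card W) le_rfl hdeg hcon (univ : Finset W)
  have e := Fintype.equivFin W
  set S : Finset W := {x | c' x = i₀ ∧ ∃ y, H.Adj x y ∧ c' y = i₀} with hS
  have memS : ∀ x, x ∈ S ↔ c' x = i₀ ∧ ∃ y, H.Adj x y ∧ c' y = i₀ := fun x => by simp [hS]
  have hm : ∀ x, ∃ y, x ∈ S → H.Adj x y ∧ c' y = i₀ := by
    intro x
    by_cases hx : x ∈ S
    · obtain ⟨-, y, hy⟩ := (memS x).1 hx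
      exact ⟨y, fun _ => hy⟩
    · exact ⟨x, fun h => absurd h hx⟩
  choose m hm using hm
  have hmS : ∀ x ∈ S, m x ∈ S := fun x hx =>
    (memS _).2 ⟨(hm x hx).2, x, (hm x hx).1.symm, ((memS x).1 hx).1⟩
  have hmm : ∀ x ∈ S, m (m x) = x := by
    intro x hx
    have a1 := hm x hx
    have a2 := hm (m x) (hmS x hx)
    exact hc2 (m x) (m (m x)) x a1.2 a2.2 ((memS x).1 hx).1 a2.1 a1.1.symm
  have huniq : ∀ x ∈ S, ∀ y ∈ S, H.Adj x y → y = m x := by
    intro x hx y hy h
    exact hc2 x y (m x) ((memS x).1 hx).1 ((memS y).1 hy).1 (hm x hx).2 h (hm x hx).1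
  set f : W → V := fun x => if e x < e (m x) then (P x).1 else (P (m x)).2 with hf
  have hP3 : ∀ w w', (P w).1 = (P w').1 → w = w' := by
    intro w w' h
    by_contra hne
    exact (hP2 w (mem_univ _) w' (mem_univ _) hne).1 h
  have hP4 : ∀ w w', (P w).1 ≠ (P w').2 := by
    intro w w' h
    by_cases hne : w = w'
    · rw [← hne] at h
      exact (hP1 w (mem_univ _)).2.2.ne h
    · exact (hP2 w (mem_univ _) w' (mem_univ _) hne).2.1 h
  have hP5 : ∀ w w', (P w).2 = (P w').2 → w = w' := by
    intro w w' h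
    by_contra hne
    exact (hP2 w (mem_univ _) w' (mem_univ _) hne).2.2 h
  have hcf : ∀ x, c (f x) = i := by
    intro x
    simp only [hf]
    split_ifs
    · exact (hP1 _ (mem_univ _)).1
    · exact (hP1 _ (mem_univ _)).2.1
  have hA : ∀ a, ∀ j, j ≠ c a → #{y ∈ ({y | c y = j} : Finset V) | ¬ G.Adj a y} ≤ b := by
    intro a j hj
    refine (card_le_card ?_).trans (h1 a)
    intro y hy
    rw [mem_filter, mem_filter] at hy
    rw [mem_filter]
    exact ⟨mem_univ _, by rw [hy.1.2]; exact hj, hy.2⟩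
  refine hfree (extend (fun j => {y | c y = j}) (fun x => Equiv.swap i₀ i (c' x)) b S f
    ?_ ?_ ?_ ?_ ?_ h2)
  · intro x hx y hy hxy
    simp only [hf] at hxy
    split_ifs at hxy with h3 h4 h4
    · exact hP3 _ _ hxy
    · exact absurd hxy (hP4 _ _)
    · exact absurd hxy.symm (hP4 _ _)
    · rw [← hmm x hx, ← hmm y hy, hP5 _ _ hxy]
  · intro x hx y hy hxy
    have e1 : y = m x := huniq x hx y hy hxy
    have e2 : m y = x := by rw [e1, hmm x hx]
    have hne : e x ≠ e y := fun h => hxy.ne (e.injective h)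
    simp only [hf]
    rw [← e1, e2]
    rcases lt_or_gt_of_ne hne with h | h
    · rw [if_pos h, if_neg h.not_gt]
      exact (hP1 x (mem_univ _)).2.2
    · rw [if_neg h.not_gt, if_pos h]
      exact (hP1 y (mem_univ _)).2.2.symm
  · intro x hx w hw hxw
    apply hA
    rw [hcf x]
    intro h
    rw [Equiv.swap_apply_eq_iff, Equiv.swap_apply_right] at h
    exact hw ((memS w).2 ⟨h, x, hxw.symm, ((memS x).1 hx).1⟩)
  · intro x hx w hw hxw h
    have h' := (Equiv.swap i₀ i).injective h
    have h3 := hc1 x w hxw h'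
    exact hx ((memS x).2 ⟨h3, w, hxw, h'.symm.trans h3⟩)
  · intro a j haj x hx
    rw [mem_filter] at hx
    exact hA x j (by rw [hx.2]; exact haj.symm)

/-- Vertices of different classes without inner neighbours are adjacent. -/
theorem cross_adj (hmax : MaximalFree H G) (c : V → Fin k) (b : ℕ)
    (h1 : ∀ w, #{y | c y ≠ c w ∧ ¬ G.Adj w y} ≤ b)
    (h2 : ∀ j, Fintype.card W * (b + 1) ≤ #{y | c y = j}) {u w : V} (huw : c u ≠ c w)
    (hu : ¬ ∃ y, G.Adj u y ∧ c y = c u) (hw : ¬ ∃ y, G.Adj w y ∧ c y = c w) : G.Adj u w := by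
  by_contra hcon
  have hne : u ≠ w := fun h => huw (congrArg c h)
  have hnf := hmax.2 u w hne hcon
  rw [not_free] at hnf
  obtain ⟨φ⟩ := hnf
  have hadj : ∀ x y, H.Adj x y → G.Adj (φ x) (φ y) ∨ (φ x = u ∧ φ y = w) ∨
      (φ x = w ∧ φ y = u) := by
    intro x y h
    have h' : (G ⊔ SimpleGraph.edge u w).Adj (φ x) (φ y) := φ.toHom.map_rel h
    rw [SimpleGraph.sup_adj, SimpleGraph.edge_adj] at h'
    rcases h' with h' | ⟨⟨h3, h4⟩ | ⟨h3, h4⟩, -⟩
    · exact Or.inl h'
    · exact Or.inr (Or.inl ⟨h3, h4⟩)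
    · exact Or.inr (Or.inr ⟨h3, h4⟩)
  obtain ⟨x₀, y₀, hxy, hx₀, hy₀⟩ : ∃ x₀ y₀, H.Adj x₀ y₀ ∧ φ x₀ = u ∧ φ y₀ = w := by
    by_contra hno
    push Not at hno
    refine hmax.1 ⟨⟨⟨φ, fun {x y} h => ?_⟩, φ.injective⟩⟩
    rcases hadj x y h with h' | ⟨h3, h4⟩ | ⟨h3, h4⟩
    · exact h'
    · exact absurd h4 (hno x y h h3)
    · exact absurd h3 (hno y x h.symm h4)
  -- the new image of `x₀`
  set s := Fintype.card W with hs
  let B : Finset V := (univ.erase y₀).image φ ∪
    (univ.erase x₀).biUnion (fun z => if H.Adj x₀ z then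
      ({y | c y ≠ c (φ z) ∧ ¬ G.Adj (φ z) y} : Finset V) else ∅)
  have hB : #B < #({y | c y = c u} : Finset V) := by
    have hs1 : 1 ≤ s := Fintype.card_pos_iff.2 ⟨x₀⟩
    have a1 : #((univ.erase y₀).image φ) ≤ s - 1 := by
      refine card_image_le.trans (le_of_eq ?_)
      rw [card_erase_of_mem (mem_univ _), card_univ]
    have a2 : #((univ.erase x₀).biUnion (fun z => if H.Adj x₀ z then
      ({y | c y ≠ c (φ z) ∧ ¬ G.Adj (φ z) y} : Finset V) else ∅)) ≤ (s - 1) * b := by
      have : s - 1 = #(univ.erase x₀) := by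
        rw [card_erase_of_mem (mem_univ _), card_univ]
      rw [this]
      apply card_biUnion_le_card_mul
      intro z _
      split_ifs
      · exact h1 (φ z)
      · simp
    calc #B ≤ (s - 1) + (s - 1) * b := (card_union_le _ _).trans (Nat.add_le_add a1 a2)
      _ = (s - 1) * (b + 1) := by ring
      _ < s * (b + 1) := Nat.mul_lt_mul_of_pos_right (by omega) (by omega)
      _ ≤ _ := h2 _
  obtain ⟨u', hu', huB⟩ := exists_mem_notMem_of_card_lt_card hB
  rw [mem_filter] at hu'
  have b1 : ∀ z, φ z ≠ u' := by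
    intro z hz
    by_cases hzy : z = y₀
    · rw [hzy, hy₀] at hz
      exact huw (by rw [hz, hu'.2])
    · exact huB (mem_union_left _ (mem_image.2 ⟨z, mem_erase.2 ⟨hzy, mem_univ _⟩, hz⟩))
  have b2 : ∀ z, H.Adj x₀ z → G.Adj u' (φ z) := by
    intro z hz
    by_contra hn
    apply huB
    refine mem_union_right _ (mem_biUnion.2 ⟨z, mem_erase.2 ⟨hz.ne', mem_univ _⟩, ?_⟩)
    rw [if_pos hz, mem_filter]
    refine ⟨mem_univ _, ?_, fun h => hn h.symm⟩
    rw [hu'.2]
    rcases hadj x₀ z hz with h | ⟨_, h⟩ | ⟨h, _⟩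
    · rw [hx₀] at h
      intro hcc
      exact hu ⟨φ z, h, hcc.symm⟩
    · rw [h]; exact huw
    · exact absurd (hx₀.symm.trans h) hne
  refine hmax.1 ⟨⟨⟨Function.update φ x₀ u', fun {x y} h => ?_⟩, fun x y h => ?_⟩⟩
  · by_cases hx : x = x₀ <;> by_cases hy : y = x₀
    · exact absurd (hx.trans hy.symm) h.ne
    · rw [hx] at h
      rw [hx, Function.update_self, Function.update_of_ne hy]
      exact b2 y h
    · rw [hy] at h
      rw [hy, Function.update_self, Function.update_of_ne hx]
      exact (b2 x h.symm).symm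
    · rw [Function.update_of_ne hx, Function.update_of_ne hy]
      rcases hadj x y h with h' | ⟨h3, _⟩ | ⟨_, h3⟩
      · exact h'
      · exact absurd (φ.injective (h3.trans hx₀.symm)) hx
      · exact absurd (φ.injective (h3.trans hx₀.symm)) hy
  · have h' : Function.update φ x₀ u' x = Function.update φ x₀ u' y := h
    by_cases hx : x = x₀ <;> by_cases hy : y = x₀
    · exact hx.trans hy.symm
    · rw [hx, Function.update_self, Function.update_of_ne hy] at h'
      exact absurd h'.symm (b1 y)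
    · rw [hy, Function.update_self, Function.update_of_ne hx] at h'
      exact absurd h' (b1 x)
    · rw [Function.update_of_ne hx, Function.update_of_ne hy] at h'
      exact φ.injective h'

end Pool.Agent.KS6_17.HB
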