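import Mathlib
import Pool.Agent.KS6_17.HB.Conv

set_option autoImplicit false

/-! The blowup threshold of match-colourable graphs, and the complete multipartite graphs. -/

namespace Pool.Agent.KS6_17.HB

open Finset SimpleGraph

/-- The blowup threshold of a match-colourable graph with a critical vertex. -/
theorem deltaB_lt {W : Type} [Fintype W] {H : SimpleGraph W} {k : ℕ} (hk : 2 ≤ k)
    (hv : HasCriticalVertex H k) (hM : MatchColorable H k) : deltaB H < 1 - 1 / (k : ℝ) := by
  classical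
  obtain ⟨v₀, cl, hcl⟩ := exists_cl hk hv
  obtain ⟨i₀, c', hc1, hc2⟩ := hM
  obtain ⟨ε, N, hε, hS⟩ := structure_thm hk cl v₀ hcl
  set ε' := min ε (1 / 2) with hε'
  have hε'0 : 0 < ε' := lt_min hε (by norm_num)
  have hε'1 : ε' ≤ ε := min_le_left _ _
  have hε'2 : ε' ≤ 1 / 2 := min_le_right _ _
  have hk0 : (2 : ℝ) ≤ k := by exact_mod_cast hk
  have hk2 : 1 / (k : ℝ) ≤ 1 / 2 := one_div_le_one_div_of_le (by norm_num) hk0
  refine lt_of_le_of_lt (b := 1 - 1 / (k : ℝ) - ε') ?_ (by linarith)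
  refine csInf_le ⟨0, fun α h => h.1⟩ ⟨by linarith, ?_⟩
  set s := Fintype.card W with hs
  set R := k * (2 * (s * s)) with hR
  refine ⟨max N (R + k * 2 ^ R), fun V _ G hG hdeg => ?_⟩
  rcases lt_or_ge (Fintype.card V) N with hlt | hge
  · exact ⟨V, inferInstance, G, hlt.le.trans (le_max_left _ _), id, Function.surjective_id,
      fun u v => Iff.rfl⟩
  obtain ⟨c, b, h1, h2⟩ := hS V G hge hG.1 (by
    refine le_trans ?_ hdeg
    apply mul_le_mul_of_nonneg_right _ (Nat.cast_nonneg _)
    linarith)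
  have h3 : ∀ w, #{y | G.Adj w y ∧ c y = c w} < s := fun w =>
    (indeg cl v₀ hcl hG.1 c b h1 h2 i₀ w).trans_le (card_le_univ _)
  set X : Finset V := {v | ∃ y, G.Adj v y ∧ c y = c v} with hX
  have memX : ∀ v, v ∈ X ↔ ∃ y, G.Adj v y ∧ c y = c v := fun v => by simp [hX]
  have hXR : #X ≤ R := by
    rw [card_eq_sum_card_fiberwise (f := c) (t := univ) (fun _ _ => mem_coe.2 (mem_univ _))]
    calc ∑ i : Fin k, #{v ∈ X | c v = i} ≤ ∑ _i : Fin k, 2 * (s * s) := by
          refine sum_le_sum fun i _ => ?_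
          refine le_trans (card_le_card ?_) (few_inner hG.1 c b h1 h2 h3 i₀ c' hc1 hc2 i)
          intro v hv'
          rw [mem_filter, memX] at hv'
          rw [mem_filter]
          exact ⟨mem_univ _, hv'.2, hv'.1⟩
      _ = R := by simp [hR]
  obtain ⟨W', hW', F, hF, hbl⟩ := blowup_of_twins G
    (fun v => if h : v ∈ X then (Sum.inl ⟨v, h⟩ : X ⊕ (Fin k × Finset X)) else
      Sum.inr (c v, univ.filter (fun x : X => G.Adj v x))) (by
    intro u u' v huu huv
    by_cases hu : u ∈ X <;> by_cases hu' : u' ∈ X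
    · simp only [dif_pos hu, dif_pos hu', Sum.inl.injEq, Subtype.mk.injEq] at huu
      rw [← huu]; exact huv
    · simp only [dif_pos hu, dif_neg hu', reduceCtorEq] at huu
    · simp only [dif_neg hu, dif_pos hu', reduceCtorEq] at huu
    · simp only [dif_neg hu, dif_neg hu', Sum.inr.injEq, Prod.mk.injEq] at huu
      by_cases hvX : v ∈ X
      · have : (⟨v, hvX⟩ : X) ∈ univ.filter (fun x : X => G.Adj u' x) := by
          rw [← huu.2, mem_filter]
          exact ⟨mem_univ _, huv⟩
        exact (mem_filter.1 this).2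
      · rw [memX] at hu' hvX
        apply cross_adj hG c b h1 h2 _ hu' hvX
        intro h
        exact hu ((memX u).2 ⟨v, huv, by rw [huu.1, h]⟩))
  refine ⟨W', hW', F, hF.trans (le_trans ?_ (le_max_right _ _)), hbl⟩
  rw [Fintype.card_sum, Fintype.card_prod, Fintype.card_fin, Fintype.card_finset,
    Fintype.card_coe]
  exact Nat.add_le_add hXR (Nat.mul_le_mul_left _ (Nat.pow_le_pow_right (by norm_num) hXR))

/-- The complete `(k+1)`-partite graph with parts of size `1, p 0, …, p (k - 1)`. -/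
abbrev hubMultipartite {k : ℕ} (p : Fin k → ℕ) :
    SimpleGraph (Σ o : Option (Fin k), Fin (o.elim 1 p)) :=
  completeMultipartiteGraph fun o : Option (Fin k) => Fin (o.elim 1 p)

theorem hub_adj {k : ℕ} {p : Fin k → ℕ} (x y : Σ o : Option (Fin k), Fin (o.elim 1 p)) :
    (hubMultipartite p).Adj x y ↔ x.1 ≠ y.1 := Iff.rfl

/-- The vertex of the part of size one. -/
def hub {k : ℕ} (p : Fin k → ℕ) : Σ o : Option (Fin k), Fin (o.elim 1 p) :=
  ⟨none, (⟨0, Nat.one_pos⟩ : Fin 1)⟩

theorem eq_hub {k : ℕ} (p : Fin k → ℕ) (x : Σ o : Option (Fin k), Fin (o.elim 1 p))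
    (h : x.1 = none) : x = hub p := by
  obtain ⟨o, a⟩ := x
  have h' : o = none := h
  subst h'
  have : a = (⟨0, Nat.one_pos⟩ : Fin 1) := Subsingleton.elim (α := Fin 1) _ _
  rw [this]
  rfl

theorem hub_connected {k : ℕ} (p : Fin k → ℕ) : (hubMultipartite p).Connected := by
  have h : ∀ x, (hubMultipartite p).Reachable (hub p) x := by
    intro x
    by_cases hx : x.1 = none
    · rw [eq_hub p x hx]
    · exact Adj.reachable ((hub_adj _ _).2 (fun e => hx e.symm))
  exact { preconnected := fun x y => (h x).symm.trans (h y)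
          nonempty := ⟨hub p⟩ }

theorem hub_critical {k : ℕ} (hk : 2 ≤ k) (p : Fin k → ℕ) :
    HasCriticalVertex (hubMultipartite p) k := by
  refine ⟨hub p, ⟨Coloring.mk (fun x => x.1.1.getD ⟨0, by omega⟩) ?_⟩⟩
  intro x y hxy h
  have h1 : x.1.1 ≠ y.1.1 := hxy
  have hx : x.1.1 ≠ none := fun e => x.2 (eq_hub p x.1 e)
  have hy : y.1.1 ≠ none := fun e => y.2 (eq_hub p y.1 e)
  obtain ⟨a, ha⟩ := Option.ne_none_iff_exists'.1 hx
  obtain ⟨b, hb⟩ := Option.ne_none_iff_exists'.1 hy
  rw [ha, hb] at h h1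
  exact h1 (congrArg some h)

theorem hub_not_match {k : ℕ} (p : Fin k → ℕ) (hp : ∀ i, 2 ≤ p i) :
    ¬ MatchColorable (hubMultipartite p) k := by
  classical
  rintro ⟨i₀, c, hc1, hc2⟩
  -- the parts contained in the class `i₀`
  let Good : Option (Fin k) → Prop := fun o => ∀ a, c ⟨o, a⟩ = i₀
  have hbad : ∀ o, ¬ Good o → ∃ a, c ⟨o, a⟩ ≠ i₀ := fun o h => by
    by_contra hcon
    push Not at hcon
    exact h hcon
  have hcard : #{o | ¬ Good o} ≤ #((univ : Finset (Fin k)).erase i₀) := by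
    let g : Option (Fin k) → Fin k := fun o => if h : ¬ Good o then c ⟨o, (hbad o h).choose⟩ else i₀
    have hg : ∀ o, ∀ h : ¬ Good o, g o = c ⟨o, (hbad o h).choose⟩ := fun o h => dif_pos h
    apply card_le_card_of_injOn g
    · intro o ho
      rw [mem_coe, mem_filter] at ho
      rw [mem_coe, mem_erase, hg o ho.2]
      exact ⟨(hbad o ho.2).choose_spec, mem_univ _⟩
    · intro o ho o' ho' h
      rw [mem_coe, mem_filter] at ho ho'
      rw [hg o ho.2, hg o' ho'.2] at h
      by_contra hne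
      exact (hbad o ho.2).choose_spec (hc1 _ _ ((hub_adj _ _).2 hne) h)
  have htot : #{o | Good o} + #{o | ¬ Good o} = k + 1 := by
    rw [card_filter_add_card_filter_not, card_univ, Fintype.card_option, Fintype.card_fin]
  have hk1 : 1 ≤ k := by have := i₀.pos; omega
  rw [card_erase_of_mem (mem_univ _), card_univ, Fintype.card_fin] at hcard
  have h2 : 1 < #{o | Good o} := by omega
  obtain ⟨o, ho, o', ho', hne⟩ := one_lt_card.1 h2
  rw [mem_filter] at ho ho'
  -- we may assume that `o' = some j`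
  have key : ∀ (o : Option (Fin k)) (j : Fin k), o ≠ some j → Good o → Good (some j) → False := by
    intro o j hoj hg1 hg2
    have hpos : 0 < o.elim 1 p := by
      rcases o with _ | a
      · exact Nat.one_pos
      · have := hp a
        show 0 < p a
        omega
    have h2j : 2 ≤ (some j).elim 1 p := hp j
    have h3 := hc2 ⟨o, ⟨0, hpos⟩⟩ ⟨some j, ⟨0, by omega⟩⟩ ⟨some j, ⟨1, by omega⟩⟩ (hg1 _) (hg2 _)
      (hg2 _) ((hub_adj _ _).2 hoj) ((hub_adj _ _).2 hoj)
    have h4 := eq_of_heq (Sigma.mk.inj h3).2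
    have h5 := congrArg Fin.val h4
    simp at h5
  rcases o' with _ | j
  · rcases o with _ | j
    · exact hne rfl
    · exact key none j (by simp) ho'.2 ho.2
  · exact key o j hne ho.2 ho'.2

end Pool.Agent.KS6_17.HB
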